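import Mathlib.Data.Rat.Defs
import Mathlib.Order.Interval.Finset.Nat
import Mathlib.Algebra.BigOperators.Group.Finset.Defs

namespace Pool.Agent.MP_e5500d_nt

open Finset

/-- `S n = ∑_{k=0}^{n-3} (-1)^k C(2k,k) C(n-3,k) C(k,n-3-k)`; the sum is empty for `n ≤ 2`. -/
def S (n : ℕ) : ℤ :=
  ∑ k ∈ range (n - 2),
    (-1) ^ k * (Nat.choose (2 * k) k : ℤ) * (Nat.choose (n - 3) k : ℤ) *
      (Nat.choose k (n - 3 - k) : ℤ)

/-- `T m = S (m+2) + 12 S (m+1) + 16 S m`. -/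
def T (m : ℕ) : ℤ := S (m + 2) + 12 * S (m + 1) + 16 * S m

/-- `A N = ∑_{k=1}^{N} (-1)^k T k / k`, computed in the rationals. -/
def A (N : ℕ) : ℚ := ∑ k ∈ Icc 1 N, (-1) ^ k * ((T k : ℚ) / (k : ℚ))

end Pool.Agent.MP_e5500d_nt
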