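import Mathlib.Algebra.BigOperators.Intervals
import Mathlib.Tactic.LinearCombination
import Mathlib.Data.Nat.Choose.Cast
import Mathlib.Algebra.Field.ZMod
import Mathlib.Data.Int.ConditionallyCompleteOrder
import Mathlib.Data.Int.Star
import Mathlib.Algebra.Order.Ring.Star
import Mathlib.Order.Interval.Finset.Box
import Mathlib.Combinatorics.Enumerative.Catalan.Basic
import Mathlib.Data.Nat.Choose.Dvd
import Mathlib.Data.Rat.Star
import Mathlib.Tactic.Algebra.Basic
import Pool.Agent.MP_e5500d_nt.Defs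

namespace Pool.Agent.MP_e5500d_nt

open Finset

/-- inverse factorial, zero on negative integers -/
def I (j : ℤ) : ℚ := if 0 ≤ j then 1 / (j.toNat.factorial : ℚ) else 0

lemma I_neg {j : ℤ} (h : j < 0) : I j = 0 := by simp [I, not_le.mpr h]

lemma I_nat (a : ℕ) : I a = 1 / (a.factorial : ℚ) := by simp [I]

lemma I_pred (j : ℤ) : I (j - 1) = j * I j := by
  rcases lt_trichotomy j 0 with h | h | h
  · rw [I_neg h, I_neg (by omega)]; simp
  · subst h; rw [I_neg (by omega)]; simp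
  · obtain ⟨a, rfl⟩ : ∃ a : ℕ, j = (a : ℤ) + 1 := ⟨(j - 1).toNat, by omega⟩
    have h1 : ((a : ℤ) + 1 - 1) = (a : ℤ) := by ring
    have h2 : ((a : ℤ) + 1) = ((a + 1 : ℕ) : ℤ) := by push_cast; ring
    rw [h1, h2, I_nat, I_nat, Nat.factorial_succ]
    push_cast
    have : (a.factorial : ℚ) ≠ 0 := by positivity
    field_simp

lemma choose_eq (a b : ℕ) : (a.choose b : ℚ) = a.factorial * I b * I ((a : ℤ) - b) := by
  rcases le_or_gt b a with h | h
  · have : ((a : ℤ) - b) = ((a - b : ℕ) : ℤ) := by omega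
    rw [this, I_nat, I_nat, Nat.cast_choose ℚ h]
    have h1 : (b.factorial : ℚ) ≠ 0 := by positivity
    have h2 : ((a - b).factorial : ℚ) ≠ 0 := by positivity
    field_simp
  · rw [Nat.choose_eq_zero_of_lt h, I_neg (j := (a : ℤ) - b) (by omega)]; simp

/-- product of two binomials in inverse factorial form -/
lemma choose_mul (m k r : ℕ) :
    (m.choose k : ℚ) * (k.choose (m - k + r) : ℚ) =
      m.factorial * I ((m : ℤ) - k) * I ((m : ℤ) - k + r) * I (2 * k - m - r) := by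
  rcases le_or_gt k m with h | h
  · rw [choose_eq m k, choose_eq k (m - k + r)]
    have e1 : (((m - k + r : ℕ)) : ℤ) = (m : ℤ) - k + r := by omega
    rw [e1]
    have e2 : (k : ℤ) - ((m : ℤ) - k + r) = 2 * k - m - r := by ring
    rw [e2, I_nat k]
    have h1 : (k.factorial : ℚ) ≠ 0 := by positivity
    field_simp
  · rw [Nat.choose_eq_zero_of_lt h, I_neg (j := (m : ℤ) - k) (by omega)]; simp

def c (k : ℕ) : ℚ := (Nat.centralBinom k : ℚ)

lemma c_succ (k : ℕ) : c (k + 1) = 2 * (2 * k + 1) * c k / (k + 1) := by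
  have := Nat.succ_mul_centralBinom_succ k
  have h : ((k : ℚ) + 1) ≠ 0 := by positivity
  rw [eq_div_iff h, c, c]
  have h2 : (((k + 1) * Nat.centralBinom (k + 1) : ℕ) : ℚ) =
    ((2 * (2 * k + 1) * Nat.centralBinom k : ℕ) : ℚ) := by rw [this]
  push_cast at h2
  linarith

/-- summand of `U m = S (m+3)` -/
def u (m k : ℕ) : ℚ :=
  (-1) ^ k * c k * (m.factorial * I ((m : ℤ) - k) * I ((m : ℤ) - k) * I (2 * k - m))

/-- integer summand of `W (m+2)` -/
def wz (m k : ℕ) : ℤ :=
  (-1) ^ k * (m.choose k : ℤ) *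
    ((k.choose (m - k) : ℤ) * catalan k + (k.choose (m - k + 2) : ℤ) * catalan (k - 1))

def w (m k : ℕ) : ℚ :=
  (-1) ^ k * (m.factorial : ℚ) *
    (2 * (c k / (k + 1)) * (I ((m : ℤ) - k) * I ((m : ℤ) - k) * I (2 * k - m)) +
      c k / (2 * k - 1) * (I ((m : ℤ) - k) * I ((m : ℤ) - k + 2) * I (2 * k - m - 2)))

lemma catalan_cast (k : ℕ) : (catalan k : ℚ) = c k / (k + 1) := by
  have := succ_mul_catalan_eq_centralBinom k
  have h : ((k : ℚ) + 1) ≠ 0 := by positivity
  rw [eq_div_iff h, c, ← this]; push_cast; ring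

lemma two_k_ne (k : ℕ) : (2 * (k : ℚ) - 1) ≠ 0 := by
  intro h
  have h2 : (2 * (k : ℤ) - 1) = 0 := by exact_mod_cast h
  omega

lemma wz_cast (m k : ℕ) : (2 * wz m k : ℚ) = w m k := by
  have h0 := choose_mul m k 0
  have h2 := choose_mul m k 2
  simp only [add_zero, Nat.cast_zero, sub_zero] at h0
  simp only [Nat.cast_ofNat] at h2
  rcases k with _ | k
  · simp only [wz, w]
    rw [I_neg (j := 2 * ((0 : ℕ) : ℤ) - m - 2) (by omega)]
    rw [Nat.choose_eq_zero_of_lt (n := 0) (k := m - 0 + 2) (by omega)]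
    push_cast
    rw [catalan_cast]
    push_cast at h0 ⊢
    linear_combination (2 * (c 0 / (0 + 1))) * h0
  · simp only [wz, w, Nat.add_sub_cancel]
    push_cast
    rw [catalan_cast, catalan_cast]
    have e : c (k + 1) / (2 * ((k : ℚ) + 1) - 1) = 2 * (c k / (k + 1)) := by
      rw [c_succ]
      have h1 : ((k : ℚ) + 1) ≠ 0 := by positivity
      have h3 : (2 * ((k : ℚ) + 1) - 1) ≠ 0 := by
        have : (0 : ℚ) ≤ k := by positivity
        linarith
      field_simp
      ring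
    rw [e]
    push_cast at h0 h2 ⊢
    linear_combination (2 * (-1) ^ (k + 1) * (c (k + 1) / (k + 1 + 1))) * h0 +
      (2 * (-1) ^ (k + 1) * (c k / (k + 1))) * h2

lemma S_cast (m N : ℕ) (h : m < N) : (S (m + 3) : ℚ) = ∑ k ∈ range N, u m k := by
  have e1 : m + 3 - 2 = m + 1 := by omega
  have e2 : m + 3 - 3 = m := by omega
  rw [S, e1, e2]
  push_cast
  have : ∀ k, (-1 : ℚ) ^ k * (Nat.choose (2 * k) k : ℚ) * (Nat.choose m k : ℚ) *
      (Nat.choose k (m - k) : ℚ) = u m k := by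
    intro k
    have h0 := choose_mul m k 0
    simp only [add_zero, Nat.cast_zero, sub_zero] at h0
    rw [u, ← h0, c, Nat.centralBinom]; ring
  simp only [this]
  apply sum_subset
  · intro k hk; simp at hk ⊢; omega
  · intro k _ hk
    simp at hk
    rw [u, I_neg (j := (m : ℤ) - k) (by omega)]; simp

/-- the telescoping certificate, `n = m + 3` -/
def G (m k : ℕ) : ℚ :=
  (-1) ^ k * (c k / (2 * k - 1)) * m.factorial *
    (I ((m : ℤ) + 3 - k) * I ((m : ℤ) + 2 - k) * I (2 * k - m - 2)) *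
    (let n : ℚ := m + 3
     let x : ℚ := k
     (-2) * x ^ 3 + 4 * x ^ 4 + 3 * n * x + 5 * n * x ^ 2 - 7 * n * x ^ 3 - n ^ 2 - 3 * n ^ 2 * x
      + 4 * n ^ 2 * x ^ 2 - n ^ 2 * x ^ 3 + n ^ 3 - 2 * n ^ 3 * x + n ^ 3 * x ^ 2)

lemma wz_step (m k : ℕ) :
    ((m : ℚ) + 3) ^ 2 * w (m + 1) k + (m + 3) * (m + 2) * w m k - u (m + 2) k - 12 * u (m + 1) k
      - 16 * u m k = -(G m (k + 1) - G m k) := by
  set a : ℚ := I ((m : ℤ) + 3 - k) with ha
  set b : ℚ := I (2 * k - m) with hb
  have a2 : I ((m : ℤ) + 2 - k) = ((m : ℚ) + 3 - k) * a := by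
    have := I_pred ((m : ℤ) + 3 - k)
    rw [show (m : ℤ) + 3 - k - 1 = m + 2 - k by ring] at this
    rw [this]; push_cast; ring
  have a1 : I ((m : ℤ) + 1 - k) = ((m : ℚ) + 2 - k) * (((m : ℚ) + 3 - k) * a) := by
    have := I_pred ((m : ℤ) + 2 - k)
    rw [show (m : ℤ) + 2 - k - 1 = m + 1 - k by ring] at this
    rw [this, a2]; push_cast; ring
  have a0 : I ((m : ℤ) - k) =
      ((m : ℚ) + 1 - k) * (((m : ℚ) + 2 - k) * (((m : ℚ) + 3 - k) * a)) := by
    have := I_pred ((m : ℤ) + 1 - k)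
    rw [show (m : ℤ) + 1 - k - 1 = m - k by ring] at this
    rw [this, a1]; push_cast; ring
  have b1 : I (2 * k - m - 1) = (2 * (k : ℚ) - m) * b := by
    have := I_pred (2 * (k : ℤ) - m)
    rw [this]; push_cast; ring
  have b2 : I (2 * k - m - 2) = (2 * (k : ℚ) - m - 1) * ((2 * (k : ℚ) - m) * b) := by
    have := I_pred (2 * (k : ℤ) - m - 1)
    rw [show 2 * (k : ℤ) - m - 1 - 1 = 2 * k - m - 2 by ring] at this
    rw [this, b1]; push_cast; ring
  have b3 : I (2 * k - m - 3) =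
      (2 * (k : ℚ) - m - 2) * ((2 * (k : ℚ) - m - 1) * ((2 * (k : ℚ) - m) * b)) := by
    have := I_pred (2 * (k : ℤ) - m - 2)
    rw [show 2 * (k : ℤ) - m - 2 - 1 = 2 * k - m - 3 by ring] at this
    rw [this, b2]; push_cast; ring
  simp only [w, u, G]
  push_cast
  rw [show (m : ℤ) + 1 - k + 2 = m + 3 - k by ring, show (m : ℤ) - k + 2 = m + 2 - k by ring,
    show 2 * (k : ℤ) - (m + 1) - 2 = 2 * k - m - 3 by ring,
    show 2 * (k : ℤ) - (m + 1) = 2 * k - m - 1 by ring,
    show 2 * (k : ℤ) - (m + 2) = 2 * k - m - 2 by ring,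
    show (m : ℤ) + 3 - (k + 1) = m + 2 - k by ring,
    show (m : ℤ) + 2 - (k + 1) = m + 1 - k by ring,
    show 2 * ((k : ℤ) + 1) - m - 2 = 2 * k - m by ring]
  rw [← ha, ← hb, a2, a1, a0, b1, b2, b3, c_succ, Nat.factorial_succ (m + 1),
    Nat.factorial_succ m]
  push_cast
  have h1 : ((k : ℚ) + 1) ≠ 0 := by positivity
  have h2 := two_k_ne k
  have h3 : (2 * ((k : ℚ) + 1) - 1) ≠ 0 := by
    have : (0 : ℚ) ≤ k := by positivity
    linarith
  field_simp
  ring

/-- the integer `W m` with `A (m+2) = (-1)^m (m+2) 2 W m` -/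
def W (m : ℕ) : ℤ := ∑ k ∈ range (m + 1), wz m k

lemma W_cast (m N : ℕ) (h : m < N) : (2 * W m : ℚ) = ∑ k ∈ range N, w m k := by
  rw [W]
  push_cast
  rw [mul_sum]
  simp only [wz_cast]
  apply sum_subset
  · intro k hk; simp at hk ⊢; omega
  · intro k _ hk
    simp at hk
    rw [w, I_neg (j := (m : ℤ) - k) (by omega)]; simp

lemma key (m : ℕ) : ((m : ℚ) + 3) ^ 2 * (2 * W (m + 1)) + (m + 3) * (m + 2) * (2 * W m) =
    T (m + 3) := by
  have h := sum_congr (s₁ := range (m + 4)) rfl (fun k _ => wz_step m k)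
  rw [sum_neg_distrib, sum_range_sub (G m)] at h
  have g0 : G m 0 = 0 := by
    rw [G, I_neg (j := 2 * ((0 : ℕ) : ℤ) - m - 2) (by omega)]; simp
  have g1 : G m (m + 4) = 0 := by
    rw [G, I_neg (j := (m : ℤ) + 3 - ((m + 4 : ℕ) : ℤ)) (by omega)]; simp
  rw [g0, g1] at h
  simp only [sum_sub_distrib, sum_add_distrib, ← mul_sum] at h
  rw [← W_cast (m + 1) (m + 4) (by omega), ← W_cast m (m + 4) (by omega),
    ← S_cast (m + 2) (m + 4) (by omega), ← S_cast (m + 1) (m + 4) (by omega),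
    ← S_cast m (m + 4) (by omega)] at h
  rw [T]
  push_cast
  rw [show m + 3 + 2 = m + 2 + 3 by ring, show m + 3 + 1 = m + 1 + 3 by ring]
  linarith

lemma A_one : A 1 = -1 := by
  simp [A, T, S]

lemma A_two : A 2 = 4 := by
  simp [A, T, S, Finset.sum_range_succ, Finset.sum_Icc_succ_top, Nat.choose]
  norm_num

theorem A_eq (m : ℕ) : A (m + 2) = (-1) ^ m * (m + 2) * (2 * W m) := by
  induction m with
  | zero => rw [A_two]; simp [W, wz]; norm_num
  | succ m ih =>
    rw [A, sum_Icc_succ_top (by omega), ← A, ih]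
    have hk := key m
    rw [show m + 1 + 1 + 1 = m + 3 by ring, ← hk]
    push_cast
    have h1 : ((m : ℚ) + 3) ≠ 0 := by positivity
    field_simp
    ring

theorem q1 (n : ℕ) (hn : 1 ≤ n) : ∃ z : ℤ, A n = (n : ℚ) * (z : ℚ) := by
  rcases n with _ | _ | m
  · omega
  · exact ⟨-1, by simp [A_one]⟩
  · refine ⟨(-1) ^ m * (2 * W m), ?_⟩
    rw [A_eq]; push_cast; ring

section modp

variable {p : ℕ} [hp : Fact p.Prime]

lemma choose_pred_one (q : ℕ) (hq : p = q + 1) (k : ℕ) (hk : k < p) :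
    (q.choose k : ZMod p) = (-1) ^ k := by
  induction k with
  | zero => simp
  | succ k ih =>
    have h0 : (p.choose (k + 1) : ZMod p) = 0 :=
      (ZMod.natCast_eq_zero_iff _ _).mpr (hp.out.dvd_choose_self (by omega) hk)
    have h1 : p.choose (k + 1) = q.choose k + q.choose (k + 1) := by
      rw [hq, Nat.choose_succ_succ]
    rw [h1] at h0
    push_cast at h0
    rw [ih (by omega)] at h0
    linear_combination h0

lemma choose_pred_two (q : ℕ) (hq : p = q + 2) (k : ℕ) (hk : k < p) :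
    (q.choose k : ZMod p) = (-1) ^ k * (k + 1) := by
  induction k with
  | zero => simp
  | succ k ih =>
    have h0 := choose_pred_one (p := p) (q + 1) (by omega) (k + 1) hk
    rw [Nat.choose_succ_succ] at h0
    push_cast at h0 ⊢
    rw [ih (by omega)] at h0
    linear_combination h0

lemma catalan_zero (k : ℕ) (h1 : p ≤ 2 * k) (h2 : k + 1 < p) : (catalan k : ZMod p) = 0 := by
  have h3 : p ∣ Nat.centralBinom k := by
    rw [Nat.centralBinom, two_mul]
    exact hp.out.dvd_choose_add (by omega) (by omega) (by omega)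
  rw [← succ_mul_catalan_eq_centralBinom] at h3
  rw [ZMod.natCast_eq_zero_iff]
  rcases (Nat.Prime.dvd_mul hp.out).mp h3 with h | h
  · exact absurd (Nat.le_of_dvd (by omega) h) (by omega)
  · exact h

lemma W_mod (t : ℕ) (ht : p = 2 * t + 3) : (W (2 * t + 1) : ZMod p) = (-1) ^ (t + 1) := by
  have hcat : ((t : ZMod p) + 2) * (catalan (t + 1) : ZMod p) = (-1) ^ (t + 1) := by
    have h1 := succ_mul_catalan_eq_centralBinom (t + 1)
    have h2 := choose_pred_one (p := p) (2 * (t + 1)) (by omega) (t + 1) (by omega)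
    rw [← h2, ← Nat.centralBinom, ← h1]
    push_cast; ring
  have hp0 : (2 * (t : ZMod p) + 3) = 0 := by
    have h1 : ((2 * t + 3 : ℕ) : ZMod p) = 0 := by rw [← ht]; exact ZMod.natCast_self p
    push_cast at h1
    exact h1
  rw [W]
  push_cast
  simp only [wz]
  push_cast
  simp only [mul_add, sum_add_distrib]
  rw [sum_eq_single (t + 1), sum_eq_single (t + 2)]
  · rw [choose_pred_two (2 * t + 1) (by omega) (t + 1) (by omega),
      choose_pred_two (2 * t + 1) (by omega) (t + 2) (by omega)]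
    rw [show 2 * t + 1 - (t + 1) = t by omega, Nat.choose_succ_self_right,
      show t + 2 - 1 = t + 1 by omega]
    have hs : ((-1 : ZMod p) ^ t) * (-1) ^ t = 1 := by
      rw [← mul_pow]; simp
    rcases Nat.eq_zero_or_pos t with h | h
    · subst h
      simp at hp0 hcat ⊢
      linear_combination 2 * hp0
    · rw [show 2 * t + 1 - (t + 2) + 2 = t + 1 by omega, Nat.choose_succ_self_right]
      push_cast
      linear_combination ((2 * t + 4 : ZMod p)) * hcat + (-1) ^ (t + 1) * hp0 +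
        ((t + 2) * (2 * t + 4) * (catalan (t + 1) : ZMod p)) * hs
  · intro k hk hne
    simp at hk
    rcases lt_or_gt_of_ne hne with h | h
    · rw [Nat.choose_eq_zero_of_lt (n := k) (by omega)]; simp
    · rw [catalan_zero (k - 1) (by omega) (by omega)]; simp
  · intro h
    simp at h
    rw [Nat.choose_eq_zero_of_lt (n := 2 * t + 1) (by omega)]; simp
  · intro k hk hne
    simp at hk
    rcases lt_or_gt_of_ne hne with h | h
    · rw [Nat.choose_eq_zero_of_lt (n := k) (by omega)]; simp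
    · rw [catalan_zero k (by omega) (by omega)]; simp
  · intro h
    simp at h
    omega

end modp

theorem q2 (p : ℕ) (hp : p.Prime) (hodd : Odd p) :
    ∃ z : ℤ, A p - 2 * (p : ℚ) * (-1) ^ ((p + 1) / 2) = (p : ℚ) ^ 2 * (z : ℚ) := by
  have := Fact.mk hp
  obtain ⟨t, ht⟩ : ∃ t, p = 2 * t + 3 := by
    obtain ⟨s, hs⟩ := hodd
    have := hp.two_le
    exact ⟨s - 1, by omega⟩
  have h := W_mod t ht
  have h2 : (((W (2 * t + 1) - (-1) ^ (t + 1) : ℤ)) : ZMod p) = 0 := by
    push_cast; rw [h]; simp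
  obtain ⟨z, hz⟩ := (ZMod.intCast_zmod_eq_zero_iff_dvd _ _).mp h2
  refine ⟨-2 * z, ?_⟩
  have hA := A_eq (2 * t + 1)
  rw [show 2 * t + 1 + 2 = p by omega] at hA
  have hW : (W (2 * t + 1) : ℚ) = (-1) ^ (t + 1) + p * z := by
    have : W (2 * t + 1) = (-1) ^ (t + 1) + p * z := by linarith
    rw [this]; push_cast; ring
  have hpq : (p : ℚ) = 2 * t + 3 := by rw [ht]; push_cast; ring
  rw [hA, hW, show (p + 1) / 2 = t + 2 by omega]
  push_cast
  rw [show (2 * (t : ℚ) + 1 + 2) = p by rw [hpq]; ring]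
  rw [pow_succ (-1 : ℚ) (2 * t), pow_mul]
  ring

end Pool.Agent.MP_e5500d_nt
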