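import Mathlib
import Pool.Agent.MP_e5500d_nt.Main

namespace Pool.Agent.Results.MP_e5500d_nt.Q1

open Pool.Agent.MP_e5500d_nt

/-- Q1: for every positive integer `n`, `A n` is an integer multiple of `n`. -/
theorem result : ∀ n : ℕ, 1 ≤ n → ∃ z : ℤ, A n = (n : ℚ) * (z : ℚ) :=
  q1

end Pool.Agent.Results.MP_e5500d_nt.Q1
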