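import Mathlib
import Pool.Agent.MP_e5500d_nt.Main

namespace Pool.Agent.Results.MP_e5500d_nt.Q2

open Pool.Agent.MP_e5500d_nt

/-- Q2: for every odd prime `p`, `A p - 2 p (-1)^((p+1)/2)` is an integer multiple of `p^2`. -/
theorem result : ∀ p : ℕ, p.Prime → Odd p →
    ∃ z : ℤ, A p - 2 * (p : ℚ) * (-1) ^ ((p + 1) / 2) = (p : ℚ) ^ 2 * (z : ℚ) :=
  q2

end Pool.Agent.Results.MP_e5500d_nt.Q2
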